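import Mathlib
import Pool.Agent.H19.LSB.Final

set_option autoImplicit false

open scoped ContDiff Manifold

namespace Pool.Agent.Results.MP_0df01e_gt.OnePoint

section

variable {E : Type} [NormedAddCommGroup E] [NormedSpace ℝ E]

/-- Fundamental tensor `g_y(u,v)` at `(x,y)`: half the second derivative of `F(x,·)^2` at `y` in the
directions `u`, `v`. -/
noncomputable def fund (F : E → E → ℝ) (x y u v : E) : ℝ :=
  (1 / 2) * fderiv ℝ (fun z => fderiv ℝ (fun w => F x w ^ 2) z v) y u

/-- `F` is a smooth Finsler metric on the open set `U` of the vector space `E`. -/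
structure IsFinsler (U : Set E) (F : E → E → ℝ) : Prop where
  smooth : ContDiffOn ℝ ∞ (fun p : E × E => F p.1 p.2) (U ×ˢ {y : E | y ≠ 0})
  pos : ∀ x ∈ U, ∀ y : E, y ≠ 0 → 0 < F x y
  hom : ∀ x ∈ U, ∀ (y : E) (t : ℝ), 0 < t → F x (t • y) = t * F x y
  convex : ∀ x ∈ U, ∀ y : E, y ≠ 0 → ∀ v : E, v ≠ 0 → 0 < fund F x y v v

/-- `G` is the geodesic spray of `F` on `U`: `g_y(G,v)` is one quarter of the `x`-derivative in
direction `y` of the `y`-derivative in direction `v` of `F^2`, minus the `x`-derivative in direction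
`v` of `F^2`. -/
def IsSpray (U : Set E) (F : E → E → ℝ) (G : E → E → E) : Prop :=
  ∀ x ∈ U, ∀ y : E, y ≠ 0 → ∀ v : E,
    fund F x y (G x y) v = (1 / 4) *
      (fderiv ℝ (fun z => fderiv ℝ (fun w => F z w ^ 2) y v) x y
        - fderiv ℝ (fun z => F z y ^ 2) x v)

/-- Berwald curvature `B_y(u,v,w)`: third derivative of `G(x,·)` at `y`. -/
noncomputable def berwald (G : E → E → E) (x y u v w : E) : E :=
  fderiv ℝ (fun z₂ => fderiv ℝ (fun z₁ => fderiv ℝ (fun z => G x z) z₁ w) z₂ v) y u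

/-- The Landsberg condition on `U`: `L_y(u,v,w) = -(1/2) g_y(B_y(u,v,w),y) = 0`. -/
def IsLandsberg (U : Set E) (F : E → E → ℝ) : Prop :=
  ∃ G : E → E → E, IsSpray U F G ∧ ∀ x ∈ U, ∀ y : E, y ≠ 0 →
    ∀ u v w : E, -(1 / 2) * fund F x y (berwald G x y u v w) y = 0

/-- Riemann curvature `R_y(u)`, in coordinates `R^i_k = 2 ∂_k G^i - y^j ∂_j ∂_{y^k} G^i
+ 2 G^j ∂_{y^j} ∂_{y^k} G^i - ∂_{y^j} G^i ∂_{y^k} G^j`. -/
noncomputable def riem (G : E → E → E) (x y u : E) : E :=
  (2 : ℝ) • fderiv ℝ (fun z => G z y) x u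
    - fderiv ℝ (fun z => fderiv ℝ (fun w => G z w) y u) x y
    + (2 : ℝ) • fderiv ℝ (fun z => fderiv ℝ (fun w => G x w) z u) y (G x y)
    - fderiv ℝ (fun w => G x w) y (fderiv ℝ (fun w => G x w) y u)

/-- The flag curvature of `F` at `x` is the number `κ` in all directions: `g_y(R_y(u),u)` is
`κ (g_y(y,y) g_y(u,u) - g_y(y,u)^2)`. -/
def FlagConst (U : Set E) (F : E → E → ℝ) (x : E) (κ : ℝ) : Prop :=
  ∃ G : E → E → E, IsSpray U F G ∧ ∀ y : E, y ≠ 0 → ∀ u : E,
    fund F x y (riem G x y u) u = κ * (fund F x y y y * fund F x y u u - fund F x y y u ^ 2)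

end

section

variable (E : Type) [NormedAddCommGroup E] [NormedSpace ℝ E]
  (M : Type) [TopologicalSpace M] [ChartedSpace E M]

/-- Real functions on the tangent bundle of the manifold `M` modelled on `E`. -/
abbrev TFun : Type := (x : M) → TangentSpace 𝓘(ℝ, E) x → ℝ

/-- Coordinate expression `(u, y) ↦ F (c⁻¹ u) (d(c⁻¹)_u y)` of a function on the tangent bundle in the
chart `c`. -/
noncomputable def coord (F : TFun E M) (c : OpenPartialHomeomorph M E) (u y : E) : ℝ :=
  F (c.symm u) (mfderiv 𝓘(ℝ, E) 𝓘(ℝ, E) c.symm u y)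

/-- `F` is a smooth Finsler metric on `M` with vanishing Landsberg curvature. -/
def Landsberg (F : TFun E M) : Prop :=
  ∀ x : M, IsFinsler (chartAt E x).target (coord E M F (chartAt E x)) ∧
    IsLandsberg (chartAt E x).target (coord E M F (chartAt E x))

/-- `F(x,-y) = F(x,y)`. -/
def Reversible (F : TFun E M) : Prop :=
  ∀ (x : M) (y : TangentSpace 𝓘(ℝ, E) x), F x (-y) = F x y

/-- `F(x,·)^2` is a quadratic form. -/
def EuclideanAt (F : TFun E M) (x : M) : Prop :=
  ∃ q : QuadraticForm ℝ (TangentSpace 𝓘(ℝ, E) x), ∀ y, F x y ^ 2 = q y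

/-- The flag curvature of `F` at `x` is the number `κ` in all directions. -/
def FlagConstAt (F : TFun E M) (x : M) (κ : ℝ) : Prop :=
  FlagConst (chartAt E x).target (coord E M F (chartAt E x)) (chartAt E x x) κ

end

/-- **A reversible Landsberg metric on a connected surface which is Euclidean at one point, or whose
flag curvature at one point is a nonzero constant, is Riemannian.**

`M` is a connected smooth surface (e.g. closed, orientable, of genus `≥ 2`), `F` a function on its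
tangent bundle which in the preferred charts `chartAt x` is a smooth Finsler metric with vanishing
Landsberg curvature, `F(x,-y) = F(x,y)`. -/
theorem result (M : Type) [TopologicalSpace M] [ChartedSpace (EuclideanSpace ℝ (Fin 2)) M]
    [IsManifold (𝓡 2) ∞ M] [ConnectedSpace M] (F : TFun (EuclideanSpace ℝ (Fin 2)) M)
    (hF : Landsberg (EuclideanSpace ℝ (Fin 2)) M F)
    (hrev : Reversible (EuclideanSpace ℝ (Fin 2)) M F)
    (hpt : ∃ x : M, EuclideanAt (EuclideanSpace ℝ (Fin 2)) M F x ∨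
      ∃ κ : ℝ, κ ≠ 0 ∧ FlagConstAt (EuclideanSpace ℝ (Fin 2)) M F x κ) :
    ∀ x : M, EuclideanAt (EuclideanSpace ℝ (Fin 2)) M F x := by
  refine Pool.Agent.H19.LSB.su2Final M F (fun x => ⟨⟨?_, ?_, ?_, ?_, ?_⟩, ?_⟩) hrev ?_
  · exact (chartAt (EuclideanSpace ℝ (Fin 2)) x).open_target
  · exact (hF x).1.smooth
  · exact (hF x).1.pos
  · exact (hF x).1.hom
  · exact (hF x).1.convex
  · exact (hF x).2
  · exact hpt

end Pool.Agent.Results.MP_0df01e_gt.OnePoint
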